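import Pool.Agent.Helper568.Sm9

set_option autoImplicit false

namespace Pool.Agent.Results.MP_19024a_an.NoLipFrechet

open Set Filter Topology Pool.Agent.Helper568.Sm
open scoped ContDiff

/-- There are Lipschitz homeomorphic Banach spaces `X`, `Y` such that for every `k ≥ 1` the
space `X` has an equivalent norm that is `k` times Fréchet differentiable at every nonzero point
and `Y` has none. -/
theorem result : ∃ (X Y : Type)
    (_ : NormedAddCommGroup X) (_ : NormedSpace ℝ X) (_ : CompleteSpace X)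
    (_ : NormedAddCommGroup Y) (_ : NormedSpace ℝ Y) (_ : CompleteSpace Y)
    (f : X ≃ Y),
    (∃ K, LipschitzWith K f) ∧ (∃ K, LipschitzWith K f.symm) ∧
    ∀ k : ℕ, 1 ≤ k →
      (∃ N : X → ℝ, (∀ x y : X, N (x + y) ≤ N x + N y) ∧
        (∀ (r : ℝ) (x : X), N (r • x) = |r| * N x) ∧
        (∃ a b : ℝ, 0 < a ∧ 0 < b ∧ ∀ x : X, a * ‖x‖ ≤ N x ∧ N x ≤ b * ‖x‖) ∧
        ∀ m : ℕ, m < k → ∀ x : X, x ≠ 0 → DifferentiableAt ℝ (iteratedFDeriv ℝ m N) x) ∧
      ¬ ∃ N : Y → ℝ, (∀ x y : Y, N (x + y) ≤ N x + N y) ∧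
        (∀ (r : ℝ) (x : Y), N (r • x) = |r| * N x) ∧
        (∃ a b : ℝ, 0 < a ∧ 0 < b ∧ ∀ x : Y, a * ‖x‖ ≤ N x ∧ N x ≤ b * ‖x‖) ∧
        ∀ m : ℕ, m < k → ∀ x : Y, x ≠ 0 → DifferentiableAt ℝ (iteratedFDeriv ℝ m N) x := by
  refine ⟨XT, ZT × CT, inferInstance, inferInstance, inferInstance, inferInstance, inferInstance,
    inferInstance, eqv, ⟨3, lip_of_norm _ eqv_norm⟩, ⟨3, lip_of_norm _ eqv_symm_norm⟩,
    fun k hk => ⟨?_, ?_⟩⟩
  · obtain ⟨N, h1, h2, h3, h4⟩ := XT_smooth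
    refine ⟨N, h1, h2, h3, fun m _ x hx => ?_⟩
    exact (h4 x hx).differentiableAt_iteratedFDeriv (by exact_mod_cast ENat.coe_lt_top m)
  · rintro ⟨N, h1, h2, ⟨a, b, ha, hb, h3⟩, h4⟩
    refine YT_no_frechet N h1 h2 a b ha hb h3 fun x hx => ?_
    have h5 := h4 0 (by omega) x hx
    have h6 : N = (continuousMultilinearCurryFin0 ℝ (ZT × CT) ℝ) ∘ (iteratedFDeriv ℝ 0 N) := by
      funext y
      simp
    rw [h6]
    exact (continuousMultilinearCurryFin0 ℝ (ZT × CT) ℝ).toContinuousLinearEquiv.differentiableAt.comp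
      x h5

end Pool.Agent.Results.MP_19024a_an.NoLipFrechet
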